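import Pool.Agent.V5helper38.ID.Main

/-!
# Small-time null control of the Navier-Stokes equations: the fluid has to be displaced

The theorem concerns an arbitrary classical trajectory on `[0, T]` of the Navier-Stokes equations with unit viscosity
in a domain, driven by any boundary control, and a closed ball `B(c, R)` in the domain on which a component of the
initial vorticity is at least `a > 0`. Nothing is assumed outside of the ball. Let `M(T)` be the integral over
`[0, T]` of the maximal speed of the fluid in the ball (the displacement), and let the vorticity be bounded by `K` in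
the ball during `[0, T]`.

* Dimension two: the vorticity at the centre at time `T` is at least
  `a - 2 K exp (- (R - M(T) - 3 √T)² / (4 T))` if `M(T) + 3 √T ≤ R`. So a null control in time `T` has to
  displace the fluid by `M(T) ≥ R - 3 √T - 2 √(T log (2 K / a))`, and its maximal speed in the ball is at least
  `R / T - (3 + 2 √(log (2 K / a))) / √T`.
* Any dimension `d`, in particular three, where the vorticity may also be stretched: let `G(T)` be the integral over
  `[0, T]` of the maximum of the `|∂_k u_l|` in the ball. Then a null control in time `T` has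
  `4 d K G(T) ≥ a` or `M(T) ≥ R - (d + 1) √T - 2 √(T log (4 K / a))`.

Here `R` may be the inradius of any region inside of the domain where the initial vorticity is at least `a`, and the
displacement needed in a short time is `R`, up to an error of the order of the length of diffusion `√T` (times a
logarithm). This is a complement of the starting result `WallAction`, which concerns the vorticity near the
uncontrolled walls.

Method: the vorticity is compared with the supersolution
`exp (λ (√(|x - c|² + T) + M(t) - R) + (λ² + d λ / √T) t)`, which moves towards the centre with the maximal speed of the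
fluid.
-/

open Set

namespace Pool.Agent.Results.MP_79abb3_an.InteriorDisplacement

open Pool.Agent.V5helper38.ID

/-- `M(t)`, `0 ≤ t ≤ T`, is the integral of the function `m ≥ 0` over `[0, t]`. -/
structure IsIntegral (T : ℝ) (m M : ℝ → ℝ) : Prop where
  nonneg : ∀ t ∈ Ioo 0 T, 0 ≤ m t
  cont : ContinuousOn M (Icc 0 T)
  zero : M 0 = 0
  deriv : ∀ t ∈ Ioo 0 T, HasDerivAt M (m t) t

/-- `(u, p)` is a classical solution of the Navier-Stokes equations in `(0, T) × Ω`, `Ω` open, whose vorticity component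
`∂_i u_j - ∂_j u_i` extends to the continuous function `w` on `[0, T] × Ω`; and `w(0, ·) ≥ a` in the closed ball
`B(c, R) ⊆ Ω`. -/
structure Trajectory {d : ℕ} (Ω : Set (Fin d → ℝ)) (T : ℝ) (u : Fin d → E d → ℝ) (p : E d → ℝ) (i j : Fin d)
    (w : E d → ℝ) (c : Fin d → ℝ) (R a : ℝ) : Prop where
  isOpen : IsOpen Ω
  pos : 0 < T
  ns : IsNS (Ioo 0 T ×ˢ Ω) u p
  vorticity : ∀ z ∈ Ioo 0 T ×ˢ Ω, w z = vort u i j z
  cont : ContinuousOn w (Icc 0 T ×ˢ Ω)
  ball : ∀ x, dq x c ≤ R ^ 2 → x ∈ Ω
  initial : ∀ x, dq x c ≤ R ^ 2 → a ≤ w (0, x)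

/-- The displacement needed for a null control. -/
theorem result :
    (∀ (Ω : Set (Fin 2 → ℝ)) (T : ℝ) (u : Fin 2 → E 2 → ℝ) (p w : E 2 → ℝ) (i j : Fin 2) (c : Fin 2 → ℝ)
      (R a K : ℝ) (m M : ℝ → ℝ), Trajectory Ω T u p i j w c R a → 0 < a → a ≤ K → IsIntegral T m M →
      (∀ t ∈ Ioo 0 T, ∀ x, dq x c ≤ R ^ 2 → ∑ k, u k (t, x) ^ 2 ≤ m t ^ 2 ∧ |w (t, x)| ≤ K) →
      (M T + 3 * Real.sqrt T ≤ R →
        a - 2 * K * Real.exp (-((R - M T - 3 * Real.sqrt T) ^ 2 / (4 * T))) ≤ w (T, c)) ∧
      ∀ b, b < a → w (T, c) ≤ b →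
        R - 3 * Real.sqrt T - 2 * Real.sqrt (T * Real.log (2 * K / (a - b))) ≤ M T ∧
        ∀ V, (∀ t ∈ Ioo 0 T, m t ≤ V) →
          R / T - (3 + 2 * Real.sqrt (Real.log (2 * K / (a - b)))) / Real.sqrt T ≤ V) ∧
    ∀ (d : ℕ) (Ω : Set (Fin d → ℝ)) (T : ℝ) (u : Fin d → E d → ℝ) (p w : E d → ℝ) (i j : Fin d) (c : Fin d → ℝ)
      (R a K : ℝ) (m M g G : ℝ → ℝ), Trajectory Ω T u p i j w c R a → 0 < a → a ≤ K → IsIntegral T m M →
      IsIntegral T g G →
      (∀ t ∈ Ioo 0 T, ∀ x, dq x c ≤ R ^ 2 → ∑ k, u k (t, x) ^ 2 ≤ m t ^ 2 ∧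
        ∀ k l, |pd (ek k) (u l) (t, x)| ≤ g t ∧ |vort u k l (t, x)| ≤ K) →
      (M T + (d + 1) * Real.sqrt T ≤ R → a - 2 * d * K * G T
        - 2 * K * Real.exp (-((R - M T - (d + 1) * Real.sqrt T) ^ 2 / (4 * T))) ≤ w (T, c)) ∧
      ∀ b, b < a → w (T, c) ≤ b → a - b ≤ 4 * d * K * G T ∨
        R - (d + 1) * Real.sqrt T - 2 * Real.sqrt (T * Real.log (4 * K / (a - b))) ≤ M T := by
  refine ⟨?_, ?_⟩
  · intro Ω T u p w i j c R a K m M h ha haK hM hb
    have hK : 0 < K := ha.trans_le haK
    obtain ⟨h1, h2⟩ := dim_two h.isOpen h.pos h.ns h.vorticity h.cont hM.cont hM.zero hM.deriv hM.nonneg h.ball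
      (fun t ht x hx => (hb t ht x hx).1) haK hK (fun t ht x hx => (hb t ht x hx).2) h.initial
    refine ⟨h1, fun b hba hwb => ⟨h2 b hba hwb, fun V hV => ?_⟩⟩
    have h3 := h2 b hba hwb
    have hT := h.pos
    have h4 : M T ≤ V * T := by
      have := Convex.image_sub_le_mul_sub_of_deriv_le (convex_Icc 0 T) hM.cont (by
        intro t ht
        rw [interior_Icc] at ht
        exact (hM.deriv t ht).differentiableAt.differentiableWithinAt) (C := V) (by
        intro t ht
        rw [interior_Icc] at ht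
        rw [(hM.deriv t ht).deriv]
        exact hV t ht) 0 (left_mem_Icc.2 hT.le) T (right_mem_Icc.2 hT.le) hT.le
      rw [hM.zero] at this
      linarith
    rw [Real.sqrt_mul hT.le] at h3
    have hs : 0 < Real.sqrt T := Real.sqrt_pos.2 hT
    have hs2 : Real.sqrt T * Real.sqrt T = T := Real.mul_self_sqrt hT.le
    have h5 : R / T - (3 + 2 * Real.sqrt (Real.log (2 * K / (a - b)))) / Real.sqrt T =
        (R - 3 * Real.sqrt T - 2 * (Real.sqrt T * Real.sqrt (Real.log (2 * K / (a - b))))) / T := by
      have h6 : (3 + 2 * Real.sqrt (Real.log (2 * K / (a - b)))) / Real.sqrt T =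
          (3 + 2 * Real.sqrt (Real.log (2 * K / (a - b)))) * Real.sqrt T / T := by
        rw [div_eq_div_iff hs.ne' hT.ne', mul_assoc, hs2]
      rw [h6]
      ring
    rw [h5, div_le_iff₀ hT]
    linarith
  · intro d Ω T u p w i j c R a K m M g G h ha haK hM hG hb
    have hK : 0 < K := ha.trans_le haK
    obtain ⟨h1, h2⟩ := dim_any h.isOpen h.pos h.ns h.vorticity h.cont hM.cont hM.zero hM.deriv hM.nonneg
      hG.cont hG.zero hG.deriv hG.nonneg h.ball (fun t ht x hx => (hb t ht x hx).1)
      (fun t ht x hx k l => ((hb t ht x hx).2 k l).1) haK hK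
      (fun t ht x hx k l => ((hb t ht x hx).2 k l).2) h.initial
    exact ⟨h1, fun b hba hwb => h2 b hba hwb⟩

end Pool.Agent.Results.MP_79abb3_an.InteriorDisplacement
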