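import Pool.Agent.V5helper93.NS.ExpType
import Pool.Agent.V5helper93.NS.Bes3

/-!
# Small-time exact null controllability of flows along round pipes with no-slip walls

Let `Ω` be a bounded open set in `ℝⁿ` (`n = 2, 3` in the problem), `Γ` the controlled part of its
boundary and `W = ∂Ω ∖ Γ` the part of the boundary with the no-slip condition. Let `J` be a nonempty
set of coordinates, `r² = ∑_{j ∈ J} x_j²`, and suppose that `Ω` lies in `r < R` and `W` in `r = R`:

* `n = 3`, `J = {0, 1}`: `Ω` is a piece of the round pipe of radius `R`, cut off by arbitrary controlled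
  surfaces, and the uncontrolled walls lie on the pipe, which is curved;
* `J = {0}`: `Ω` is a piece of the channel between the walls `x_0 = R` and `x_0 = -R`.

The whole of the pipe (or of the channel) inside the domain can be an uncontrolled wall. The theorem:
flows along the pipe, `u₀(x)_i = 0` for `i ∈ J` and `u₀(x)_i = F_i(r²)` for `i ∉ J`, of any size, are
initial values of trajectories of the Navier-Stokes system which vanish at time `T`, for every `T > 0`,
in each of the cases

* (1) `F_i(s) = Re f_i(s)` with entire functions `f_i` of exponential type (all polynomials, for instance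
  the Hagen-Poiseuille flow `R² - r²`), with `F_i(R²) = 0`;
* (2) `F_i(s) = ∑_k c_k j(l_k s)`, `∑ |c_k| < ∞`, a series of radial Dirichlet eigenfunctions of the
  cross-section (`bes`: `j(l r²) = J₀(√l r)` if `J` has two elements, `cos(√l r)` if `J` has one
  element), `j(l_k R²) = 0`. By classical theorems on Fourier-Bessel series all `C²` radial
  profiles which vanish at the wall are of this form (this is not used and not proved).

The only control is a time dependent pressure gradient along the pipe.

The trajectories (`IsTrajectory`, in `Pool/Agent/V5helper93/NS/Defs.lean`) are classical solutions for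
positive times, continuous up to the boundary, with finite energy and with the initial value in `L²`.

Proof. The velocity is `v(t, r²) - v(t, R²)`, where `v(t, s) = ∑ α^(i)(t) s^i / c_i` is the solution of
the radial heat equation with the value `α` at the axis (`Δ^i r^(2i) = c_i`); near `t = 0` the function
`α` is the function given by the initial value (analytic at `t = 0` in (1), and for `t > 0` in (2)),
later it is multiplied by a cut-off function of Gevrey class `3/2` (`cut`, from the starting
files `Pool/Agent/Y308/BC`). In (2) the bounds near `t = 0` come from the energy `j² + 4 z j'² ≤ 1`.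
-/

set_option autoImplicit false

namespace Pool.Agent.Results.MP_79abb3_an.PipeFlows

open MeasureTheory Set Pool.Agent.V5helper93.NS

/-- Let `J` be a nonempty set of coordinates of `ℝⁿ`, `R > 0`, `Ω ⊆ ℝⁿ` a bounded open set in
`∑_{j ∈ J} x_j² < R²`, `Γ` any set such that `∂Ω ∖ Γ` lies in `∑_{j ∈ J} x_j² = R²`, and `T > 0`.

(1) Let `f_i`, `i ∉ J`, be entire functions of exponential type with `Re f_i(R²) = 0`. There is a
trajectory with no-slip condition on `∂Ω ∖ Γ` whose initial value has the components `0` for `i ∈ J` and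
`Re f_i(∑_{j ∈ J} x_j²)` for `i ∉ J`, and which vanishes at time `T`.

(2) Let `c i k`, `l i k ≥ 0`, `i ∉ J`, `k ∈ ℕ`, be real numbers with `∑_k |c i k| < ∞` and
`bes |J| (l i k R²) = 0`. There is a trajectory with no-slip condition on `∂Ω ∖ Γ` whose initial value
has the components `0` for `i ∈ J` and `∑_k c i k · bes |J| (l i k ∑_{j ∈ J} x_j²)` for `i ∉ J`, and which
vanishes at time `T`. -/
theorem result {n : ℕ} (J : Finset (Fin n)) (hJ : J.Nonempty) {R : ℝ} (hR : 0 < R)
    {Ω : Set (Sp n)} (hΩo : IsOpen Ω) (hΩb : Bornology.IsBounded Ω)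
    (hΩ : ∀ x ∈ Ω, ∑ j ∈ J, x j ^ 2 < R ^ 2) (Γ : Set (Sp n))
    (hΓ : ∀ x ∈ frontier Ω \ Γ, ∑ j ∈ J, x j ^ 2 = R ^ 2) {T : ℝ} (hT : 0 < T) :
    (∀ (f : Fin n → ℂ → ℂ) (C ρ : ℝ), (∀ i, i ∉ J → Differentiable ℂ (f i)) →
      (∀ i, i ∉ J → ∀ z, ‖f i z‖ ≤ C * Real.exp (ρ * ‖z‖)) →
      (∀ i, i ∉ J → (f i ((R ^ 2 : ℝ) : ℂ)).re = 0) →
      ∃ u p, IsTrajectory Ω (frontier Ω \ Γ) T
          (fun x i => if i ∈ J then 0 else (f i ((∑ j ∈ J, x j ^ 2 : ℝ) : ℂ)).re) u p ∧
        ∀ x ∈ closure Ω, u T x = 0) ∧
    (∀ c l : Fin n → ℕ → ℝ, (∀ i, i ∉ J → Summable fun k => |c i k|) →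
      (∀ i, i ∉ J → ∀ k, 0 ≤ l i k) → (∀ i, i ∉ J → ∀ k, bes J.card (l i k * R ^ 2) = 0) →
      ∃ u p, IsTrajectory Ω (frontier Ω \ Γ) T
          (fun x i => if i ∈ J then 0 else
            ∑' k, c i k * bes J.card (l i k * ∑ j ∈ J, x j ^ 2)) u p ∧
        ∀ x ∈ closure Ω, u T x = 0) := by
  constructor
  · intro f C ρ hf hfC hf0
    obtain ⟨u, p, h1, h2⟩ := pipe3 J (Finset.card_pos.2 hJ) hΩo hΩb (B := R ^ 2) (T := T)
      (by positivity) hT hΩ hΓ f hf hfC hf0
    exact ⟨u, p, h1, fun x _ => h2 x⟩
  · intro c l hc hl hz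
    obtain ⟨u, p, h1, h2⟩ := pipe5 J (Finset.card_pos.2 hJ) hΩo hΩb (B := R ^ 2) (T := T)
      (by positivity) hT hΩ hΓ c l hc hl hz
    exact ⟨u, p, h1, fun x _ => h2 x⟩

end Pool.Agent.Results.MP_79abb3_an.PipeFlows
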