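import Pool.Agent.V5helper23.PF.Final2

/-!
# Small-time exact null controllability of parallel flows in pipes with flat no-slip walls

Let `Ω` be a bounded open set in `ℝⁿ`, `n = d + 2` (`n = 3` in the problem), `Γ` the controlled part of
its boundary and `W = ∂Ω ∖ Γ` the part of the boundary with the no-slip condition; `Ω` may have any
topology and `Γ` any geometry. A *parallel flow* is a vector field `x ↦ f (x 0, x 1)` whose first two
components are zero (for `n = 3`: `(0, 0, w (x 0, x 1))`).

Let the pair `(Q, L)` consist of a rectangle `Q = (0, a) × (0, b)` and the lines `L` which contain three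
of its sides, or of a sector `Q` of angle `π / m`, `m = 1, 2, 3, …`, and the lines `L` which contain its
two radii (`IsPipe`). If `Ω` lies in the pipe `(x 0, x 1) ∈ Q` and `W` in the walls `(x 0, x 1) ∈ L`,
every parallel flow with square integrable profile on `Q`, of any size, is the initial value of a
trajectory of the Navier-Stokes system which vanishes at time `T`, for every `T > 0`. The pressure of the
trajectory is zero.

The trajectories (`IsTrajectory`, in `Pool/Agent/V5helper93/NS/Defs.lean`) are classical solutions for
`0 < t ≤ T`, continuous up to the boundary, take the initial value in `L²(Ω)` and have finite energy.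

Proof. On parallel flows the system is the heat equation in two variables for each component. Rectangle:
expand the profile in sines of `x 1`; each coefficient, a function of `x 0`, is steered to zero by the
series with odd powers of `x 0` of a flat output which is cut off in a Gevrey class of order `3/2`
(project NS of helper93, starting files `Pool/Agent/Y308/BC`). The double series converges for positive
times with all derivatives; the initial value and the energy follow from Parseval's identity in `x 1`.
Sector: extend the profile by zero to a square around the edge, take a solution for the square and form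
its alternating sum over the dihedral group of the sector.
-/

set_option autoImplicit false

namespace Pool.Agent.Results.MP_79abb3_an.RectangularPipes

open MeasureTheory Set Real Pool.Agent.V5helper93.NS

/-- the sector of radius `R` with `0 < angle < π / m` -/
def Sector (m : ℕ) (R : ℝ) : Set (ℝ × ℝ) :=
  {p | p.1 ^ 2 + p.2 ^ 2 < R ^ 2 ∧ 0 < p.2 ∧ p.2 * cos (π / m) < p.1 * sin (π / m)}

/-- `Q` is the cross-section of the pipe and `L` contains the uncontrolled no-slip walls: `Q` is a
rectangle and `L` the union of the lines of three of its sides, or `Q` is a sector of angle `π / m` and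
`L` the union of the lines of its two radii. -/
def IsPipe (Q L : Set (ℝ × ℝ)) : Prop :=
  (∃ a b : ℝ, 0 < a ∧ 0 < b ∧ Q = Ioo 0 a ×ˢ Ioo 0 b ∧
    L = {p | p.1 = 0 ∨ p.2 = 0 ∨ p.2 = b}) ∨
  (∃ (m : ℕ) (R : ℝ), 1 ≤ m ∧ 0 < R ∧ Q = Sector m R ∧
    L = {p | p.2 = 0 ∨ p.2 * cos (π / m) = p.1 * sin (π / m)})

/-- Let `(Q, L)` be a pipe, `Ω ⊆ ℝ^(d+2)` a bounded open set with `(x 0, x 1) ∈ Q` for `x ∈ Ω`, `Γ` any
set such that `(x 0, x 1) ∈ L` for `x ∈ ∂Ω ∖ Γ`, `T > 0`, and let the components of `f` be square
integrable on `Q`, the first two zero. There is a trajectory with pressure zero, with no-slip condition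
on `∂Ω ∖ Γ` and initial value `x ↦ f (x 0, x 1)`, which vanishes at time `T`. -/
theorem result {d : ℕ} {Q L : Set (ℝ × ℝ)} (hQ : IsPipe Q L) {Ω : Set (Sp (d + 2))}
    (hΩo : IsOpen Ω) (hΩb : Bornology.IsBounded Ω) (hΩ : ∀ x ∈ Ω, (x 0, x 1) ∈ Q)
    (Γ : Set (Sp (d + 2))) (hW : ∀ x ∈ frontier Ω \ Γ, (x 0, x 1) ∈ L) {T : ℝ} (hT : 0 < T)
    (f : Fin (d + 2) → ℝ × ℝ → ℝ) (hf0 : ∀ y, f 0 y = 0) (hf1 : ∀ y, f 1 y = 0)
    (hf : ∀ i, MemLp (f i) 2 (volume.restrict Q)) :
    ∃ u, IsTrajectory Ω (frontier Ω \ Γ) T (fun x i => f i (x 0, x 1)) u (fun _ _ => 0) ∧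
      ∀ x ∈ closure Ω, u T x = 0 := by
  rcases hQ with ⟨a, b, ha, hb, rfl, rfl⟩ | ⟨m, R, hm, hR, rfl, rfl⟩
  · exact Pool.Agent.V5helper23.PF.final hΩo hΩb ha hb hT hΩ hW f hf0 hf1 hf
  · exact Pool.Agent.V5helper23.PF.final2 hΩo hΩb hm hR hT hΩ hW f hf0 hf1 hf

end Pool.Agent.Results.MP_79abb3_an.RectangularPipes
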