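import Pool.Agent.V5helper93.NS.Main

/-!
# Small-time exact null controllability of shear flows between no-slip walls

Let `Ω` be a bounded open set in `ℝⁿ`, `n = d + 1` (`n = 2, 3` in the problem), `Γ` the controlled part
of its boundary and `W = ∂Ω ∖ Γ` the part of the boundary with the no-slip condition; `Ω` may have any
topology and `Γ` any geometry. `x 0` is the first coordinate and `Ω` lies in the slab `0 < x 0 < ℓ`.
A *shear flow* is a vector field `x ↦ f (x 0)` whose first component is zero.

1. *Flat walls.* If `W` lies in the hyperplane `x 0 = 0`, every shear flow with profile `f` in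
   `L²(0, ℓ)`, of any size, is the initial value of a trajectory of the Navier-Stokes system which
   vanishes at time `T`, for every `T > 0`.
2. *Channels.* If `W` lies in the two hyperplanes `x 0 = 0` and `x 0 = ℓ`, the same holds for every
   shear flow whose profile is symmetric, `f (ℓ - y) = f y`, vanishes at the walls and has a square
   integrable derivative (that is, `f (y) = ∫_0^y g` with `g` in `L²(0, ℓ)` and
   `g (ℓ - y) = - g y`), for example the Poiseuille flow `y (ℓ - y)`. Here the whole control is a time
   dependent pressure gradient.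

The trajectories (`IsTrajectory`, in `Pool/Agent/V5helper93/NS/Defs.lean`) are classical solutions for
`0 < t ≤ T`, continuous up to the boundary, take the initial value in `L²(Ω)` and have finite energy.

Proof. On shear flows the system is the heat equation `v_t = v_yy + P(t)` for each component. For one
wall the solution is the series with odd powers of `y` of a flat output (the shear at the wall), which
is cut off in a Gevrey class of order `3/2` (starting files `Pool/Agent/Y308/BC`); one series gives the
solution for all positive times. For two walls the shear `v_y` is such a solution on the half channel,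
with its zero in the middle of the channel, and `P(t)` is read off at the wall.
-/

set_option autoImplicit false

namespace Pool.Agent.Results.MP_79abb3_an.ShearFlows

open MeasureTheory Set Pool.Agent.V5helper93.NS

/-- Let `Ω ⊆ ℝ^(d+1)` be a bounded open set in the slab `0 < x 0 < ℓ`, `Γ` any set, `T > 0`, and let
`f` have the first component zero.

(1) If `∂Ω ∖ Γ` lies in `x 0 = 0` and all the components of `f` are in `L²(0, ℓ)`, there is a trajectory
with no-slip condition on `∂Ω ∖ Γ` and initial value `x ↦ f (x 0)` which vanishes at time `T`.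

(2) If `∂Ω ∖ Γ` lies in the union of `x 0 = 0` and `x 0 = ℓ`, the same holds if all the components of
`f` are primitives `∫_0^y g` of functions `g` in `L²(0, ℓ)` with `g (ℓ - y) = - g y`. -/
theorem result {d : ℕ} {Ω : Set (Sp (d + 1))} (hΩo : IsOpen Ω) (hΩb : Bornology.IsBounded Ω)
    (Γ : Set (Sp (d + 1))) {ℓ : ℝ} (hℓ : 0 < ℓ) (hΩ : ∀ x ∈ Ω, x 0 ∈ Ioo 0 ℓ) {T : ℝ} (hT : 0 < T)
    (f : Fin (d + 1) → ℝ → ℝ) (hf0 : ∀ y, f 0 y = 0) :
    ((∀ x ∈ frontier Ω \ Γ, x 0 = 0) → (∀ i, MemLp (f i) 2 (volume.restrict (Ioo 0 ℓ))) →
      ∃ u p, IsTrajectory Ω (frontier Ω \ Γ) T (fun x i => f i (x 0)) u p ∧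
        ∀ x ∈ closure Ω, u T x = 0) ∧
    ((∀ x ∈ frontier Ω \ Γ, x 0 = 0 ∨ x 0 = ℓ) →
      (∀ i, ∃ g : ℝ → ℝ, MemLp g 2 (volume.restrict (Ioo 0 ℓ)) ∧
        (∀ y ∈ Ioo 0 ℓ, g (ℓ - y) = -g y) ∧ ∀ y ∈ Ioo 0 ℓ, f i y = ∫ s in (0:ℝ)..y, g s) →
      ∃ u p, IsTrajectory Ω (frontier Ω \ Γ) T (fun x i => f i (x 0)) u p ∧
        ∀ x ∈ closure Ω, u T x = 0) :=
  ⟨fun hW hf => one_wall hΩo hΩb hℓ hΩ hT hW hf0 hf,
    fun hW hf => two_walls hΩo hΩb hℓ hΩ hT hW hf0 hf⟩

end Pool.Agent.Results.MP_79abb3_an.ShearFlows
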